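import Pool.Agent.Helper43.NG.Spec

/-!
# Part TRA of project NG (helper30): the concrete filtration
-/

set_option autoImplicit false

namespace Pool.Agent.Helper30.NG

open scoped Pointwise commutatorElement
open Subgroup Pool.Agent.Helper43.NG

universe u

variable {G : Type u} [Group G]

theorem mem_EE {T : Set G} {k m l : ℕ} {x : G} (hx : Let T l x) (h1 : m ≤ l) (h2 : l ≤ k) :
    x ∈ EE T k m := ⟨l, h1, h2, hx⟩

theorem HH_anti (T : Set G) (k : ℕ) {l l' : ℕ} (h : l ≤ l') : HH T k l' ≤ HH T k l := by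
  unfold HH
  apply Subgroup.closure_mono
  rintro x ⟨j, h1, h2, h3⟩
  exact ⟨j, by omega, h2, h3⟩

theorem HH_last (T : Set G) {k l : ℕ} (h : k < l) : HH T k l = ⊥ := by
  unfold HH
  have : EE T k l = ∅ := by
    ext x
    simp only [Set.mem_empty_iff_false, iff_false]
    rintro ⟨j, h1, h2, -⟩
    omega
  rw [this, Subgroup.closure_empty]

/-- the key fact -/
theorem key {T : Set G} {k i j : ℕ} {a b : G} (hi : i ≤ k) (hj : j ≤ k) (ha : Let T i a)
    (hb : Let T j b) : ⁅a, b⁆ ∈ EE T k (i + j) ∨ ⁅a, b⁆ ∈ DD T k := by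
  by_cases h : i + j ≤ k
  · exact Or.inl ⟨i + j, le_rfl, h, Let.comm ha hb⟩
  · exact Or.inr ⟨i, j, a, b, hi, hj, by omega, ha, hb, rfl⟩

theorem SS_conj {T : Set G} {k m K : ℕ} {g s : G} (hg : g ∈ HH T k (m + 1))
    (hs : s ∈ SS T k m K) : g * s * g⁻¹ ∈ SS T k m K := by
  obtain ⟨h, hh, n, hn, y, hy, d, hd, rfl⟩ := hs
  exact ⟨g * h, mul_mem hg hh, n, hn, y, hy, d, hd, by group⟩

theorem S0_conj {T : Set G} {k m K : ℕ} {g : G} (hg : g ∈ HH T k (m + 1)) :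
    ∀ s ∈ S0 T k m K, g * s * g⁻¹ ∈ S0 T k m K := by
  intro s hs
  unfold S0 at hs ⊢
  induction hs using closure_induction with
  | mem x hx => exact subset_closure (SS_conj hg hx)
  | one => simp
  | mul x y _ _ ihx ihy =>
    have : g * (x * y) * g⁻¹ = (g * x * g⁻¹) * (g * y * g⁻¹) := by group
    rw [this]; exact mul_mem ihx ihy
  | inv x _ ih =>
    have : g * x⁻¹ * g⁻¹ = (g * x * g⁻¹)⁻¹ := by group
    rw [this]; exact inv_mem ih

theorem DD_S0 {T : Set G} {k m K : ℕ} (hK : 0 < K) {d : G} (hd : d ∈ DD T k) :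
    d ∈ S0 T k m K := by
  refine subset_closure ⟨1, one_mem _, 0, hK, 1, ?_, d, hd, by group⟩
  rw [pow_zero]; exact Set.mem_one.2 rfl

/-- products of two subgroups, the first normalised by the second -/
def prodSub (S H : Subgroup G) (hc : ∀ g ∈ H, ∀ s ∈ S, g * s * g⁻¹ ∈ S) : Subgroup G where
  carrier := {x | ∃ s ∈ S, ∃ h ∈ H, x = s * h}
  one_mem' := ⟨1, one_mem _, 1, one_mem _, by simp⟩
  mul_mem' := by
    rintro x y ⟨s, hs, h, hh, rfl⟩ ⟨s', hs', h', hh', rfl⟩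
    exact ⟨s * (h * s' * h⁻¹), mul_mem hs (hc h hh s' hs'), h * h', mul_mem hh hh', by group⟩
  inv_mem' := by
    rintro x ⟨s, hs, h, hh, rfl⟩
    refine ⟨h⁻¹ * s⁻¹ * h, ?_, h⁻¹, inv_mem hh, by group⟩
    have := hc h⁻¹ (inv_mem hh) s⁻¹ (inv_mem hs)
    simpa using this

theorem mem_sup_iff' (S H : Subgroup G) (hc : ∀ g ∈ H, ∀ s ∈ S, g * s * g⁻¹ ∈ S) (x : G) :
    x ∈ H ⊔ S ↔ ∃ s ∈ S, ∃ h ∈ H, x = s * h := by
  constructor
  · intro hx
    have h1 : H ⊔ S ≤ prodSub S H hc := by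
      apply sup_le
      · intro y hy
        exact ⟨1, one_mem _, y, hy, by simp⟩
      · intro y hy
        exact ⟨y, hy, 1, one_mem _, by simp⟩
    exact h1 hx
  · rintro ⟨s, hs, h, hh, rfl⟩
    exact mul_mem ((le_sup_right : S ≤ H ⊔ S) hs) ((le_sup_left : H ≤ H ⊔ S) hh)

theorem comm_closure (A B : Set G) (N : Subgroup G)
    (hA : ∀ g ∈ closure A, ∀ x ∈ N, g * x * g⁻¹ ∈ N)
    (hB : ∀ g ∈ closure B, ∀ x ∈ N, g * x * g⁻¹ ∈ N)
    (hab : ∀ a ∈ A, ∀ b ∈ B, a * b * a⁻¹ * b⁻¹ ∈ N) :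
    ∀ g ∈ closure A, ∀ h ∈ closure B, g * h * g⁻¹ * h⁻¹ ∈ N := by
  have h1 : ∀ a ∈ A, ∀ h ∈ closure B, a * h * a⁻¹ * h⁻¹ ∈ N := by
    intro a ha h hh
    induction hh using closure_induction with
    | mem x hx => exact hab a ha x hx
    | one => simp
    | mul x y hx hy ihx ihy =>
      have : a * (x * y) * a⁻¹ * (x * y)⁻¹
          = (a * x * a⁻¹ * x⁻¹) * (x * (a * y * a⁻¹ * y⁻¹) * x⁻¹) := by group
      rw [this]; exact mul_mem ihx (hB x hx _ ihy)
    | inv x hx ih =>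
      have : a * x⁻¹ * a⁻¹ * x⁻¹⁻¹ = x⁻¹ * (a * x * a⁻¹ * x⁻¹)⁻¹ * x⁻¹⁻¹ := by group
      rw [this]; exact hB x⁻¹ (inv_mem hx) _ (inv_mem ih)
  intro g hg h hh
  induction hg using closure_induction with
  | mem x hx => exact h1 x hx h hh
  | one => simp
  | mul x y hx hy ihx ihy =>
    have : (x * y) * h * (x * y)⁻¹ * h⁻¹
        = (x * (y * h * y⁻¹ * h⁻¹) * x⁻¹) * (x * h * x⁻¹ * h⁻¹) := by group
    rw [this]; exact mul_mem (hA x hx _ ihy) ihx
  | inv x hx ih =>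
    have : x⁻¹ * h * x⁻¹⁻¹ * h⁻¹ = x⁻¹ * (x * h * x⁻¹ * h⁻¹)⁻¹ * x⁻¹⁻¹ := by group
    rw [this]; exact hA x⁻¹ (inv_mem hx) _ (inv_mem ih)

theorem mem_NN_iff {T : Set G} {k m K l : ℕ} (hl : m < l) (x : G) :
    x ∈ NN T k m K l ↔ ∃ s ∈ S0 T k m K, ∃ h ∈ HH T k l, x = s * h :=
  mem_sup_iff' _ _ (fun g hg => S0_conj (HH_anti T k (show m + 1 ≤ l by omega) hg)) x

theorem NN_anti (T : Set G) (k m K : ℕ) {l l' : ℕ} (h : l ≤ l') :
    NN T k m K l' ≤ NN T k m K l := sup_le_sup_right (HH_anti T k h) _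

theorem down {T : Set G} {k m K : ℕ} (hK : 0 < K) (r : ℕ) :
    ∀ l, l + r = k + 1 → m < l →
      (∀ g ∈ HH T k (m + 1), ∀ x ∈ NN T k m K l, g * x * g⁻¹ ∈ NN T k m K l) ∧
      (l ≤ k → ∀ g ∈ HH T k (m + 1), ∀ x ∈ NN T k m K l,
        g * x * g⁻¹ * x⁻¹ ∈ NN T k m K (l + 1)) := by
  induction r with
  | zero =>
    intro l hl hml
    refine ⟨?_, fun h => by omega⟩
    intro g hg x hx
    have e : NN T k m K l = S0 T k m K := by
      unfold NN; rw [HH_last T (show k < l by omega), bot_sup_eq]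
    rw [e] at hx ⊢
    exact S0_conj hg x hx
  | succ r ih =>
    intro l hl hml
    obtain ⟨ih1, -⟩ := ih (l + 1) (by omega) (by omega)
    have hHl : HH T k l ≤ HH T k (m + 1) := HH_anti T k (by omega)
    have hb : ∀ g ∈ HH T k (m + 1), ∀ h ∈ HH T k l,
        g * h * g⁻¹ * h⁻¹ ∈ NN T k m K (l + 1) := by
      refine comm_closure _ _ _ ih1 (fun g hg => ih1 g (hHl hg)) ?_
      rintro a ⟨i, hi1, hi2, ha⟩ b ⟨j, hj1, hj2, hb⟩
      rw [← commutatorElement_def]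
      rcases key hi2 hj2 ha hb with h | h
      · apply (le_sup_left : HH T k (l + 1) ≤ NN T k m K (l + 1))
        apply HH_anti T k (show l + 1 ≤ i + j by omega)
        exact subset_closure h
      · exact (le_sup_right : S0 T k m K ≤ NN T k m K (l + 1)) (DD_S0 hK h)
    have hc : ∀ g ∈ HH T k (m + 1), ∀ x ∈ NN T k m K l,
        g * x * g⁻¹ * x⁻¹ ∈ NN T k m K (l + 1) := by
      intro g hg x hx
      obtain ⟨s, hs, h, hh, rfl⟩ := (mem_NN_iff hml x).1 hx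
      have : g * (s * h) * g⁻¹ * (s * h)⁻¹
          = (g * s * g⁻¹) * (g * h * g⁻¹ * h⁻¹) * s⁻¹ := by group
      rw [this]
      have hS : S0 T k m K ≤ NN T k m K (l + 1) := le_sup_right
      exact mul_mem (mul_mem (hS (S0_conj hg s hs)) (hb g hg h hh)) (hS (inv_mem hs))
    refine ⟨?_, fun _ => hc⟩
    intro g hg x hx
    have : g * x * g⁻¹ = (g * x * g⁻¹ * x⁻¹) * x := by group
    rw [this]
    exact mul_mem (NN_anti T k m K (Nat.le_succ l) (hc g hg x hx)) hx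

theorem tra (hL : S_LET.{u}) : S_TRA.{u} := by
  intro G _ T h1 hT k m K hm hmk hK
  obtain ⟨L1, L2, L3, L4, L5⟩ := hL G T h1 hT
  refine ⟨fun g hg => S0_conj hg, fun l hl x => mem_NN_iff hl x, ?_, ?_⟩
  · intro l hml hlk g hg h hh
    obtain ⟨s, hs, g', hg', rfl⟩ := (mem_NN_iff (by omega) g).1 hg
    obtain ⟨d1, d2⟩ := down (T := T) (k := k) (m := m) hK (k + 1 - l) l (by omega) hml
    have hS : S0 T k m K ≤ NN T k m K (l + 1) := le_sup_right
    have e : s * g' * h * (s * g')⁻¹ * h⁻¹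
        = s * (g' * h * g'⁻¹ * h⁻¹) * (h * s⁻¹ * h⁻¹) := by group
    rw [e]
    refine mul_mem (mul_mem (hS hs) (d2 hlk g' hg' h hh)) (hS ?_)
    obtain ⟨s', hs', h', hh', rfl⟩ := (mem_NN_iff hml h).1 hh
    have e2 : s' * h' * s⁻¹ * (s' * h')⁻¹ = s' * (h' * s⁻¹ * h'⁻¹) * s'⁻¹ := by group
    rw [e2]
    exact mul_mem (mul_mem hs' (S0_conj (HH_anti T k (by omega) hh') _ (inv_mem hs)))
      (inv_mem hs')
  · intro l hml hlk h hh
    obtain ⟨s, hs, g, hg, rfl⟩ := (mem_NN_iff hml h).1 hh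
    obtain ⟨d1, -⟩ := down (T := T) (k := k) (m := m) hK (k + 1 - (l + 1)) (l + 1) (by omega) (by omega)
    have hS : S0 T k m K ≤ NN T k m K (l + 1) := le_sup_right
    have hpow : ∀ n : ℕ, ∀ y ∈ (LL T l) ^ n, y ∈ HH T k (m + 1) := by
      intro n
      induction n with
      | zero =>
        intro y hy
        rw [pow_zero, Set.mem_one] at hy
        rw [hy]; exact one_mem _
      | succ n ih =>
        intro y hy
        rw [pow_succ] at hy
        obtain ⟨a, ha, b, hb, rfl⟩ := hy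
        exact mul_mem (ih a ha) (subset_closure ⟨l, by omega, hlk, hb⟩)
    have hinv : (LL T l)⁻¹ = LL T l := by
      ext x
      constructor
      · intro hx
        have := L2 l _ hx
        simpa [LL] using this
      · intro hx
        exact L2 l x hx
    have hQ : ∃ n : ℕ, ∃ h' ∈ (LL T l) ^ n, g * h'⁻¹ ∈ NN T k m K (l + 1) := by
      clear hh
      unfold HH at hg
      induction hg using closure_induction with
      | mem x hx =>
        obtain ⟨j, hj1, hj2, hx⟩ := hx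
        rcases eq_or_lt_of_le hj1 with rfl | hj
        · exact ⟨1, x, by rw [pow_one]; exact hx, by rw [mul_inv_cancel]; exact one_mem _⟩
        · refine ⟨0, 1, by rw [pow_zero]; exact Set.mem_one.2 rfl, ?_⟩
          rw [inv_one, mul_one]
          exact (le_sup_left : HH T k (l + 1) ≤ NN T k m K (l + 1))
            (subset_closure ⟨j, hj, hj2, hx⟩)
      | one =>
        exact ⟨0, 1, by rw [pow_zero]; exact Set.mem_one.2 rfl, by simp⟩
      | mul x y _ _ ihx ihy =>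
        obtain ⟨n, a, ha, hxa⟩ := ihx
        obtain ⟨n', b, hb, hyb⟩ := ihy
        refine ⟨n + n', a * b, by rw [pow_add]; exact Set.mul_mem_mul ha hb, ?_⟩
        have : x * y * (a * b)⁻¹ = (x * a⁻¹) * (a * (y * b⁻¹) * a⁻¹) := by group
        rw [this]
        exact mul_mem hxa (d1 a (hpow n a ha) _ hyb)
      | inv x _ ih =>
        obtain ⟨n, a, ha, hxa⟩ := ih
        refine ⟨n, a⁻¹, ?_, ?_⟩
        · rw [← hinv, inv_pow]
          exact Set.inv_mem_inv.2 ha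
        · have : x⁻¹ * a⁻¹⁻¹ = a⁻¹ * (x * a⁻¹)⁻¹ * a⁻¹⁻¹ := by group
          rw [this]
          exact d1 a⁻¹ (inv_mem (hpow n a ha)) _ (inv_mem hxa)
    obtain ⟨n, h', hh', hn⟩ := hQ
    refine ⟨n, h', hh', ?_⟩
    rw [mul_assoc]
    exact mul_mem (hS hs) hn

end Pool.Agent.Helper30.NG
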